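import Pool.Agent.H1.LT.Two

/-!
# Counting the pairs that a linear form separates
-/

set_option autoImplicit false

namespace Pool.Agent.H1.LT

open Finset

variable {N : ℕ}

/-- The sample space: for each data edge a first and a second name. -/
abbrev Sp (N : ℕ) := Fin N → (Fin N × Bool) × (Fin N × Bool)

/-- The first name. -/
def pv (x : Fin N × Bool) : ℕ := 2 * (x.1 : ℕ) + x.2.toNat

/-- The other end of the fixed edge. -/
def fl (x : Fin N × Bool) : Fin N × Bool := (x.1, !x.2)

/-- The first names after the change at `t`. -/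
def P (t t' : Fin N) (z : Sp N) (i : Fin N) : ℕ := if i = t then pv (fl (z t').1) else pv (z i).1

/-- The second names of the list with a triangle. -/
def QY (t t' : Fin N) (z : Sp N) (i : Fin N) : ℕ := if i = t then qv (z t').2 else qv (z i).2

/-- The second names of the list without a triangle. -/
def QN (t t' : Fin N) (z : Sp N) (i : Fin N) : ℕ :=
  if i = t then qv (z t').2 + 1 else qv (z i).2

/-- An affine form. -/
def F (C : ℝ) (α β : Fin N → ℝ) (p q : Fin N → ℕ) : ℝ := C + ∑ i, (α i * p i + β i * q i)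

/-- The coefficients after the change. -/
def D (β : Fin N → ℝ) (t t' i : Fin N) : ℝ :=
  if i = t then 0 else if i = t' then β t' + β t else β i

theorem F_no (C : ℝ) (α β : Fin N → ℝ) (t t' : Fin N) (z : Sp N) :
    F C α β (P t t' z) (QN t t' z) = F C α β (P t t' z) (QY t t' z) + β t := by
  have h : ∀ i, α i * (P t t' z i : ℝ) + β i * (QN t t' z i : ℝ) =
      (α i * (P t t' z i : ℝ) + β i * (QY t t' z i : ℝ)) + if i = t then β i else 0 := by
    intro i
    by_cases hi : i = t
    · simp only [QN, QY, hi, if_true]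
      push_cast
      ring
    · simp only [QN, QY, hi, if_false]
      ring
  unfold F
  rw [Finset.sum_congr rfl fun i _ => h i, Finset.sum_add_distrib, Finset.sum_ite_eq' univ t β]
  simp only [Finset.mem_univ, if_true]
  ring

theorem F_yes (C : ℝ) (α β : Fin N → ℝ) {t t' : Fin N} (ht : t' ≠ t) (z : Sp N) :
    F C α β (P t t' z) (QY t t' z) =
      (C + ∑ i, α i * (P t t' z i : ℝ)) + ∑ i, D β t t' i * (qv (z i).2 : ℝ) := by
  have h : ∀ i, β i * (QY t t' z i : ℝ) =
      D β t t' i * (qv (z i).2 : ℝ) + ((if i = t then β t * (qv (z t').2 : ℝ) else 0) -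
        (if i = t' then β t * (qv (z t').2 : ℝ) else 0)) := by
    intro i
    by_cases hi : i = t
    · have : t ≠ t' := ht.symm
      simp only [QY, D, hi, if_true, this, if_false]
      ring
    · by_cases hi' : i = t'
      · simp only [QY, D, hi', if_true, ht, if_false]
        ring
      · simp only [QY, D, hi', if_false, hi]
        ring
  unfold F
  rw [Finset.sum_add_distrib, Finset.sum_congr rfl fun i _ => h i, Finset.sum_add_distrib,
    Finset.sum_sub_distrib, Finset.sum_ite_eq' univ t, Finset.sum_ite_eq' univ t']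
  simp only [Finset.mem_univ, if_true]
  ring

/-- The samples where the signs differ. -/
noncomputable def S (C : ℝ) (α β : Fin N → ℝ) (t t' : Fin N) : Finset (Sp N) := by
  classical
  exact univ.filter fun z => SignType.sign (F C α β (P t t' z) (QY t t' z)) ≠
    SignType.sign (F C α β (P t t' z) (QN t t' z))

theorem mem_S {C : ℝ} {α β : Fin N → ℝ} {t t' : Fin N} {z : Sp N} :
    z ∈ S C α β t t' ↔ SignType.sign (F C α β (P t t' z) (QY t t' z)) ≠
    SignType.sign (F C α β (P t t' z) (QN t t' z)) := by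
  simp [S]

theorem sign_ne {v b : ℝ} (h : SignType.sign v ≠ SignType.sign (v + b)) :
    b ≠ 0 ∧ min 0 (-b) ≤ v ∧ v ≤ max 0 (-b) := by
  refine ⟨?_, ?_, ?_⟩
  · rintro rfl
    simp at h
  · by_contra hc
    push Not at hc
    rw [lt_min_iff] at hc
    refine h ?_
    rw [sign_neg hc.1, sign_neg (by linarith [hc.2])]
  · by_contra hc
    push Not at hc
    rw [max_lt_iff] at hc
    refine h ?_
    rw [sign_pos hc.1, sign_pos (by linarith [hc.2])]

theorem min_max_abs (b : ℝ) : max 0 (-b) - min 0 (-b) = |b| := by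
  rcases le_total 0 b with h | h
  · rw [max_eq_left (by linarith), min_eq_right (by linarith), abs_of_nonneg h]
    ring
  · rw [max_eq_right (by linarith), min_eq_left (by linarith), abs_of_nonpos h]
    ring

theorem S_zero {C : ℝ} {α β : Fin N → ℝ} {t t' : Fin N} (h : β t = 0) : S C α β t t' = ∅ := by
  rw [Finset.eq_empty_iff_forall_notMem]
  intro z hz
  rw [mem_S, F_no] at hz
  exact (sign_ne hz).1 h

theorem mem_S_bound {C : ℝ} {α β : Fin N → ℝ} {t t' : Fin N} (ht : t' ≠ t) {z : Sp N}
    (hz : z ∈ S C α β t t') :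
    min 0 (-β t) ≤ (C + ∑ i, α i * (P t t' z i : ℝ)) + ∑ i, D β t t' i * (qv (z i).2 : ℝ) ∧
    (C + ∑ i, α i * (P t t' z i : ℝ)) + ∑ i, D β t t' i * (qv (z i).2 : ℝ) ≤ max 0 (-β t) := by
  rw [mem_S, F_no] at hz
  rw [← F_yes C α β ht]
  exact (sign_ne hz).2

theorem P_congr {t t' : Fin N} {z z' : Sp N} (h : ∀ i, (z i).1 = (z' i).1) :
    P t t' z = P t t' z' := by
  funext i
  simp only [P, h]

/-- One large coefficient. -/
theorem S_one {C : ℝ} {α β : Fin N → ℝ} {t t' : Fin N} (ht : t' ≠ t) (i₀ : Fin N)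
    (hb : |β t| < 3 * |D β t t' i₀|) :
    (S C α β t t').card * (2 * N) ≤ 3 * Fintype.card (Sp N) := by
  classical
  have hX : Fintype.card (Fin N × Bool) = 2 * N := by
    rw [Fintype.card_prod, Fintype.card_fin, Fintype.card_bool, mul_comm]
  rw [← hX]
  refine resample (W := Sp N) (X := Fin N × Bool)
    (fun z y => Function.update z i₀ ((z i₀).1, y)) (fun z => (z i₀).2) ?_ ?_ ?_ _ _ ?_
  · intro w x
    simp
  · intro w
    simp
  · intro w x y
    simp
  · intro z
    have hd : D β t t' i₀ ≠ 0 := by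
      intro h
      rw [h, abs_zero, mul_zero] at hb
      exact absurd hb (not_lt.mpr (abs_nonneg _))
    obtain ⟨K, hK⟩ : ∃ K : ℝ, K = (C + ∑ i, α i * (P t t' z i : ℝ)) +
      ∑ i ∈ univ.erase i₀, D β t t' i * (qv (z i).2 : ℝ) := ⟨_, rfl⟩
    refine le_trans (Finset.card_le_card ?_) (card_qv 2 (D β t t' i₀) (min 0 (-β t) - K)
      (max 0 (-β t) - K) hd ?_)
    · intro y hy
      rw [Finset.mem_filter] at hy ⊢
      refine ⟨Finset.mem_univ _, ?_⟩
      have h := mem_S_bound ht hy.2
      have e : ∑ i, D β t t' i * (qv (Function.update z i₀ ((z i₀).1, y) i).2 : ℝ) =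
          D β t t' i₀ * (qv y : ℝ) + ∑ i ∈ univ.erase i₀, D β t t' i * (qv (z i).2 : ℝ) := by
        rw [← Finset.add_sum_erase _ _ (Finset.mem_univ i₀)]
        congr 1
        · rw [Function.update_self]
        · refine Finset.sum_congr rfl fun i hi => ?_
          rw [Function.update_of_ne (Finset.ne_of_mem_erase hi)]
      rw [P_congr (z' := z), e] at h
      · rw [hK]
        constructor <;> linarith [h.1, h.2]
      · intro i
        by_cases hi : i = i₀
        · rw [hi, Function.update_self]
        · rw [Function.update_of_ne hi]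
    · have := min_max_abs (β t)
      push_cast
      linarith

/-- The second kind of resampling. -/
def op2 (i₀ : Fin N) (U : Finset (Fin N)) (z : Sp N) (x : (Fin N × Bool) × (U → Bool)) : Sp N :=
  fun i => if i = i₀ then ((z i).1, x.1) else
    if h : i ∈ U then ((z i).1, ((z i).2.1, x.2 ⟨i, h⟩)) else z i

/-- The resampled data. -/
def pr2 (i₀ : Fin N) (U : Finset (Fin N)) (z : Sp N) : (Fin N × Bool) × (U → Bool) :=
  ((z i₀).2, fun i => (z i).2.2)

theorem sum_op2 (i₀ : Fin N) (U : Finset (Fin N)) (hU : i₀ ∉ U) (d : Fin N → ℝ) (z : Sp N)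
    (x : (Fin N × Bool) × (U → Bool)) :
    ∑ i, d i * (qv (op2 i₀ U z x i).2 : ℝ) =
      (∑ i, (if i = i₀ then 0 else if i ∈ U then d i * ((z i).2.1 : ℕ) else
        d i * (qv (z i).2 : ℝ))) + (d i₀ * (qv x.1 : ℝ) +
        ∑ i : U, (if x.2 i then (N * d i : ℝ) else 0)) := by
  classical
  have h : ∀ i, d i * (qv (op2 i₀ U z x i).2 : ℝ) =
      (if i = i₀ then 0 else if i ∈ U then d i * ((z i).2.1 : ℕ) else d i * (qv (z i).2 : ℝ)) +
      ((if i = i₀ then d i₀ * (qv x.1 : ℝ) else 0) +
      (if h : i ∈ U then (if x.2 ⟨i, h⟩ then (N * d i : ℝ) else 0) else 0)) := by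
    intro i
    by_cases hi : i = i₀
    · subst hi
      simp [op2, hU]
    · by_cases hi' : i ∈ U
      · simp only [op2, hi, hi', if_false, if_true, dif_pos]
        cases hx : x.2 ⟨i, hi'⟩
        · simp [qv]
        · simp [qv]
          ring
      · simp [op2, hi, hi']
  have h2 : ∑ i : U, (if x.2 i then (N * d i : ℝ) else 0) =
      ∑ i, (if h : i ∈ U then (if x.2 ⟨i, h⟩ then (N * d i : ℝ) else 0) else 0) := by
    rw [← Finset.sum_subset (Finset.subset_univ U), ← Finset.sum_attach U]
    · rw [Finset.univ_eq_attach]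
      refine Finset.sum_congr rfl fun i _ => ?_
      rw [dif_pos i.2]
    · intro i _ hi
      rw [dif_neg hi]
  rw [Finset.sum_congr rfl fun i _ => h i, Finset.sum_add_distrib, Finset.sum_add_distrib, h2,
    Finset.sum_ite_eq' univ i₀]
  simp only [Finset.mem_univ, if_true]

/-- Many large coefficients. -/
theorem S_many (hN : 0 < N) {C : ℝ} {α β : Fin N → ℝ} {t t' : Fin N} (ht : t' ≠ t)
    (hβ : β t ≠ 0) {n : ℕ} (hn : n = (univ.filter fun i => |β t| ≤ |β i|).card) (h3 : 3 ≤ n) :
    ((S C α β t t').card : ℝ) * (N * √(n - 2)) ≤ 3 * Fintype.card (Sp N) := by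
  classical
  obtain ⟨U, hU⟩ : ∃ U, U = ((univ.filter fun i => |β t| ≤ |β i|).erase t).erase t' := ⟨_, rfl⟩
  have hUc : n ≤ U.card + 2 := by
    have h1 := Finset.pred_card_le_card_erase (a := t')
      (s := (univ.filter fun i => |β t| ≤ |β i|).erase t)
    have h2 := Finset.pred_card_le_card_erase (a := t)
      (s := (univ.filter fun i => |β t| ≤ |β i|))
    rw [← hU] at h1
    rw [← hn] at h2
    omega
  have hUne : U.Nonempty := by
    rw [← Finset.card_pos]
    omega
  obtain ⟨i₀, hi₀, hmin⟩ := Finset.exists_min_image U (fun i => |β i|) hUne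
  have hmem : ∀ i ∈ U, i ≠ t ∧ i ≠ t' ∧ |β t| ≤ |β i| := by
    intro i hi
    rw [hU, Finset.mem_erase, Finset.mem_erase, Finset.mem_filter] at hi
    exact ⟨hi.2.1, hi.1, hi.2.2.2⟩
  have hD : ∀ i ∈ U, D β t t' i = β i := by
    intro i hi
    obtain ⟨h1, h2, _⟩ := hmem i hi
    simp only [D, h1, h2, if_false]
  obtain ⟨U', hU'⟩ : ∃ U', U' = U.erase i₀ := ⟨_, rfl⟩
  have hi₀' : i₀ ∉ U' := by rw [hU']; exact Finset.notMem_erase _ _
  have hU'c : U'.card + 1 = U.card := by rw [hU']; exact Finset.card_erase_add_one hi₀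
  have hsub : U' ⊆ U := by rw [hU']; exact Finset.erase_subset _ _
  have hβi₀ : D β t t' i₀ ≠ 0 := by
    rw [hD i₀ hi₀]
    intro h
    have := (hmem i₀ hi₀).2.2
    rw [h, abs_zero] at this
    exact hβ (abs_nonpos_iff.mp this)
  have hX : Fintype.card ((Fin N × Bool) × (U' → Bool)) = (2 * N) * 2 ^ U'.card := by
    rw [Fintype.card_prod, Fintype.card_prod, Fintype.card_fin, Fintype.card_bool,
      Fintype.card_fun, Fintype.card_bool, Fintype.card_coe, mul_comm N 2]
  have key := resample (W := Sp N) (X := (Fin N × Bool) × (U' → Bool))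
    (op2 i₀ U') (pr2 i₀ U') (by
      intro w x
      refine Prod.ext ?_ ?_
      · simp [op2, pr2]
      · funext i
        have h1 : (i : Fin N) ≠ i₀ := fun h => hi₀' (h ▸ i.2)
        simp [op2, pr2, h1]) (by
      intro w
      funext i
      by_cases h1 : i = i₀
      · subst h1
        simp [op2, pr2]
      · by_cases h2 : i ∈ U'
        · simp [op2, pr2, h1, h2]
        · simp [op2, h1, h2]) (by
      intro w x y
      funext i
      by_cases h1 : i = i₀
      · subst h1
        simp [op2]
      · by_cases h2 : i ∈ U'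
        · simp [op2, h1, h2]
        · simp [op2, h1, h2]) (S C α β t t') (6 * (U'.card).choose (U'.card / 2)) (by
      intro z
      obtain ⟨K, hK⟩ : ∃ K : ℝ, K = (C + ∑ i, α i * (P t t' z i : ℝ)) +
        (∑ i, (if i = i₀ then 0 else if i ∈ U' then D β t t' i * ((z i).2.1 : ℕ) else
        D β t t' i * (qv (z i).2 : ℝ))) := ⟨_, rfl⟩
      have h2 := two_scale (κ := U') (r := N) hN (D β t t' i₀) hβi₀ (fun i => N * D β t t' i)
        (by
          intro i
          have hiU : (i : Fin N) ∈ U := hsub i.2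
          rw [hD i hiU, hD i₀ hi₀, abs_mul, Nat.abs_cast]
          exact mul_le_mul_of_nonneg_left (hmin i hiU) (Nat.cast_nonneg _))
        (min 0 (-β t) - K) (max 0 (-β t) - K) (by
          have := min_max_abs (β t)
          rw [hD i₀ hi₀]
          linarith [(hmem i₀ hi₀).2.2])
      rw [Fintype.card_coe] at h2
      refine le_trans (Finset.card_le_card ?_) h2
      intro x hx
      rw [Finset.mem_filter] at hx ⊢
      refine ⟨Finset.mem_univ _, ?_⟩
      have h := mem_S_bound ht hx.2
      rw [P_congr (z' := z), sum_op2 i₀ U' hi₀'] at h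
      · rw [hK]
        constructor <;> linarith [h.1, h.2]
      · intro i
        by_cases hi : i = i₀
        · simp [op2, hi]
        · by_cases hi' : i ∈ U'
          · simp [op2, hi, hi']
          · simp [op2, hi, hi'])
  rw [hX] at key
  have key' : ((S C α β t t').card : ℝ) * (2 * N * 2 ^ U'.card) ≤
      6 * ((U'.card).choose (U'.card / 2) : ℕ) * Fintype.card (Sp N) := by exact_mod_cast key
  have hch := choose_half_le U'.card
  have hs : (0 : ℝ) < √((U'.card : ℝ) + 1) := Real.sqrt_pos.mpr (by positivity)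
  rw [le_div_iff₀ hs] at hch
  have hsq : √((n : ℝ) - 2) ≤ √((U'.card : ℝ) + 1) := by
    refine Real.sqrt_le_sqrt ?_
    have : ((n : ℕ) : ℝ) ≤ ((U.card + 2 : ℕ) : ℝ) := by exact_mod_cast hUc
    have h' : ((U'.card + 1 : ℕ) : ℝ) = U.card := by exact_mod_cast hU'c
    push_cast at this h'
    linarith
  have hΩ : (0 : ℝ) ≤ Fintype.card (Sp N) := Nat.cast_nonneg _
  have h2u : (0 : ℝ) < 2 ^ U'.card := by positivity
  have h5 : ((S C α β t t').card : ℝ) * (N * √((U'.card : ℝ) + 1)) * (2 * 2 ^ U'.card) ≤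
      3 * Fintype.card (Sp N) * (2 * 2 ^ U'.card) := by
    calc ((S C α β t t').card : ℝ) * (N * √((U'.card : ℝ) + 1)) * (2 * 2 ^ U'.card)
        = ((S C α β t t').card : ℝ) * (2 * N * 2 ^ U'.card) * √((U'.card : ℝ) + 1) := by ring
      _ ≤ (6 * ((U'.card).choose (U'.card / 2) : ℕ) * Fintype.card (Sp N)) *
          √((U'.card : ℝ) + 1) := mul_le_mul_of_nonneg_right key' hs.le
      _ = 6 * Fintype.card (Sp N) *
          (((U'.card).choose (U'.card / 2) : ℕ) * √((U'.card : ℝ) + 1)) := by ring
      _ ≤ 6 * Fintype.card (Sp N) * 2 ^ U'.card :=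
          mul_le_mul_of_nonneg_left hch (by positivity)
      _ = _ := by ring
  have h6 := le_of_mul_le_mul_right h5 (by positivity)
  refine le_trans (mul_le_mul_of_nonneg_left (mul_le_mul_of_nonneg_left hsq (Nat.cast_nonneg _))
    (Nat.cast_nonneg _)) h6

/-- The bound for one rank. -/
noncomputable def phi (n : ℕ) : ℝ := if n ≤ 2 then 3 else 3 / √((n : ℝ) - 2)

theorem phi_nonneg (n : ℕ) : 0 ≤ phi n := by
  unfold phi
  split_ifs <;> positivity

theorem phi_antitone : Antitone phi := by
  intro a b hab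
  unfold phi
  by_cases ha : a ≤ 2
  · rw [if_pos ha]
    by_cases hb : b ≤ 2
    · rw [if_pos hb]
    · rw [if_neg hb]
      have h1 : (1 : ℝ) ≤ √((b : ℝ) - 2) := by
        rw [Real.one_le_sqrt]
        have : ((3 : ℕ) : ℝ) ≤ b := by exact_mod_cast (by omega : 3 ≤ b)
        push_cast at this
        linarith
      exact div_le_self (by norm_num) h1
  · have hb : ¬ b ≤ 2 := by omega
    rw [if_neg ha, if_neg hb]
    have h0 : (0 : ℝ) < (a : ℝ) - 2 := by
      have : ((3 : ℕ) : ℝ) ≤ a := by exact_mod_cast (by omega : 3 ≤ a)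
      push_cast at this
      linarith
    have h1 : (a : ℝ) ≤ b := by exact_mod_cast hab
    exact div_le_div_of_nonneg_left (by norm_num) (Real.sqrt_pos.mpr h0)
      (Real.sqrt_le_sqrt (by linarith))

theorem sum_phi (k : ℕ) : ∑ r ∈ range (k + 2), phi (r + 1) ≤ 6 + 6 * √k := by
  induction k with
  | zero =>
    simp [Finset.sum_range_succ, phi]
    norm_num
  | succ k ih =>
    rw [Finset.sum_range_succ]
    have h1 : phi (k + 2 + 1) = 3 / √((k : ℝ) + 1) := by
      unfold phi
      rw [if_neg (by omega)]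
      congr 2
      push_cast
      ring
    rw [h1]
    have hs : (0 : ℝ) < √((k : ℝ) + 1) := Real.sqrt_pos.mpr (by positivity)
    have hs2 : √((k : ℝ) + 1) * √((k : ℝ) + 1) = k + 1 := Real.mul_self_sqrt (by positivity)
    have hk2 : √(k : ℝ) * √(k : ℝ) = k := Real.mul_self_sqrt (by positivity)
    have hk : √(k : ℝ) ≤ √((k : ℝ) + 1) := Real.sqrt_le_sqrt (by linarith)
    have h2 : 3 / √((k : ℝ) + 1) ≤ 6 * √((k : ℝ) + 1) - 6 * √k := by
      rw [div_le_iff₀ hs]
      nlinarith [Real.sqrt_nonneg (k : ℝ)]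
    push_cast
    linarith

/-- All pairs with a given first member. -/
theorem sum_S_one (hN : 0 < N) (C : ℝ) (α β : Fin N → ℝ) (t : Fin N) :
    ∑ t' ∈ univ.erase t, ((S C α β t t').card : ℝ) ≤
      phi (univ.filter fun i => |β t| ≤ |β i|).card * Fintype.card (Sp N) := by
  classical
  have hΩ : (0 : ℝ) ≤ Fintype.card (Sp N) := Nat.cast_nonneg _
  have hN' : (0 : ℝ) < N := by exact_mod_cast hN
  have hcard : ((univ.erase t).card : ℝ) ≤ N := by
    have : (univ.erase t).card ≤ N := by
      refine (Finset.card_le_univ _).trans ?_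
      rw [Fintype.card_fin]
    exact_mod_cast this
  by_cases hβ : β t = 0
  · rw [Finset.sum_eq_zero]
    · exact mul_nonneg (phi_nonneg _) hΩ
    · intro t' _
      rw [S_zero hβ]
      simp
  · obtain ⟨n, hn⟩ : ∃ n, n = (univ.filter fun i => |β t| ≤ |β i|).card := ⟨_, rfl⟩
    rw [← hn]
    by_cases h3 : n ≤ 2
    · unfold phi
      rw [if_pos h3]
      obtain ⟨s₀, hs₀⟩ : ∃ s₀, ∀ s, s ≠ t → s ≠ s₀ → ∃ i, |β t| < 3 * |D β t s i| := by
        have hpos : 0 < |β t| := abs_pos.mpr hβ
        by_cases hex : ∃ s₀, s₀ ≠ t ∧ |β t| ≤ 2 * |β s₀|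
        · obtain ⟨s₀, h1, h2⟩ := hex
          refine ⟨s₀, fun s hs hs' => ⟨s₀, ?_⟩⟩
          have : D β t s s₀ = β s₀ := by
            simp only [D, h1, hs'.symm, if_false]
          rw [this]
          linarith
        · push Not at hex
          refine ⟨t, fun s hs _ => ⟨s, ?_⟩⟩
          have h1 : D β t s s = β s + β t := by
            simp only [D, hs, if_false, if_true]
          rw [h1]
          have h2 := hex s hs
          have h3 : |β t| ≤ |β s + β t| + |β s| := by
            calc |β t| = |(β s + β t) - β s| := by ring_nf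
              _ ≤ |β s + β t| + |β s| := abs_sub _ _
          linarith
      calc ∑ t' ∈ univ.erase t, ((S C α β t t').card : ℝ)
          ≤ ∑ t' ∈ univ.erase t, ((if t' = s₀ then (Fintype.card (Sp N) : ℝ) else 0) +
              3 * Fintype.card (Sp N) / (2 * N)) := by
            refine Finset.sum_le_sum fun s hs => ?_
            have hst := Finset.ne_of_mem_erase hs
            by_cases h : s = s₀
            · rw [if_pos h]
              have : ((S C α β t s).card : ℝ) ≤ Fintype.card (Sp N) := by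
                exact_mod_cast Finset.card_le_univ _
              have h' : 0 ≤ 3 * (Fintype.card (Sp N) : ℝ) / (2 * N) := by positivity
              linarith
            · rw [if_neg h, zero_add, le_div_iff₀ (by positivity)]
              obtain ⟨i, hi⟩ := hs₀ s hst h
              exact_mod_cast S_one hst i hi
        _ ≤ Fintype.card (Sp N) + N * (3 * Fintype.card (Sp N) / (2 * N)) := by
            rw [Finset.sum_add_distrib, Finset.sum_ite_eq', Finset.sum_const, nsmul_eq_mul]
            refine add_le_add ?_ (mul_le_mul_of_nonneg_right hcard (by positivity))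
            split_ifs <;> linarith
        _ ≤ 3 * Fintype.card (Sp N) := by
            have : (N : ℝ) * (3 * Fintype.card (Sp N) / (2 * N)) =
                3 / 2 * Fintype.card (Sp N) := by
              field_simp
            rw [this]
            linarith
    · unfold phi
      rw [if_neg h3]
      have h3' : 3 ≤ n := by omega
      have hpos : 0 < √((n : ℝ) - 2) := by
        refine Real.sqrt_pos.mpr ?_
        have : ((3 : ℕ) : ℝ) ≤ n := by exact_mod_cast h3'
        push_cast at this
        linarith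
      calc ∑ t' ∈ univ.erase t, ((S C α β t t').card : ℝ)
          ≤ ∑ t' ∈ univ.erase t, 3 * Fintype.card (Sp N) / (N * √((n : ℝ) - 2)) := by
            refine Finset.sum_le_sum fun s hs => ?_
            rw [le_div_iff₀ (by positivity)]
            exact S_many hN (Finset.ne_of_mem_erase hs) hβ hn h3'
        _ ≤ N * (3 * Fintype.card (Sp N) / (N * √((n : ℝ) - 2))) := by
            rw [Finset.sum_const, nsmul_eq_mul]
            exact mul_le_mul_of_nonneg_right hcard (by positivity)
        _ = 3 / √((n : ℝ) - 2) * Fintype.card (Sp N) := by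
            field_simp

/-- All pairs. -/
theorem sum_S (hN : 2 ≤ N) (C : ℝ) (α β : Fin N → ℝ) :
    ∑ t, ∑ t' ∈ univ.erase t, ((S C α β t t').card : ℝ) ≤
      12 * √N * Fintype.card (Sp N) := by
  obtain ⟨k, hk⟩ : ∃ k, N = k + 2 := ⟨N - 2, by omega⟩
  have h1 : ∑ t, phi (univ.filter fun i => |β t| ≤ |β i|).card ≤ 12 * √N := by
    have h2 := rank_sum (fun i => |β i|) phi phi_antitone
    refine h2.trans ?_
    have h3 := sum_phi k
    rw [← hk] at h3
    refine h3.trans ?_
    have h4 : (1 : ℝ) ≤ √N := by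
      rw [Real.one_le_sqrt]
      exact_mod_cast (by omega : 1 ≤ N)
    have h5 : √(k : ℝ) ≤ √(N : ℝ) := by
      refine Real.sqrt_le_sqrt ?_
      exact_mod_cast (by omega : k ≤ N)
    linarith
  calc ∑ t, ∑ t' ∈ univ.erase t, ((S C α β t t').card : ℝ)
      ≤ ∑ t, phi (univ.filter fun i => |β t| ≤ |β i|).card * Fintype.card (Sp N) :=
        Finset.sum_le_sum fun t _ => sum_S_one (by omega) C α β t
    _ = (∑ t, phi (univ.filter fun i => |β t| ≤ |β i|).card) * Fintype.card (Sp N) := by
        rw [Finset.sum_mul]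
    _ ≤ _ := mul_le_mul_of_nonneg_right h1 (Nat.cast_nonneg _)

end Pool.Agent.H1.LT
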