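import Pool.Agent.H1.LT.Count

/-!
# The lists of edges
-/

set_option autoImplicit false

namespace Pool.Agent.H1.LT

open Finset

/-- A list of `m` different edges `a i < b i` with names less than `n`. -/
def Simple (n : ℕ) {m : ℕ} (a b : Fin m → ℕ) : Prop :=
  (∀ i, a i < b i ∧ b i < n) ∧ ∀ i j, a i = a j → b i = b j → i = j

/-- The list has a triangle. -/
def HasTriangle {m : ℕ} (a b : Fin m → ℕ) : Prop :=
  ∃ i j l, a i = a j ∧ b i = a l ∧ b j = b l

variable {N m : ℕ}

/-- First names. -/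
def ea (m : ℕ) (p : Fin N → ℕ) (i : Fin m) : ℕ :=
  if h : (i : ℕ) < N then p ⟨i, h⟩ else if (i : ℕ) < 2 * N then 2 * (i - N) else 4 * N + 1

/-- Second names. -/
def eb (m : ℕ) (q : Fin N → ℕ) (i : Fin m) : ℕ :=
  if h : (i : ℕ) < N then 2 * N + q ⟨i, h⟩ else
    if (i : ℕ) < 2 * N then 2 * (i - N) + 1 else 4 * N + 2

theorem simple_inst (h1 : 2 * N ≤ m) (h2 : m ≤ 2 * N + 1) (p q : Fin N → ℕ)
    (hp : ∀ i, p i < 2 * N) (hq : ∀ i, q i ≤ 2 * N)
    (hd : ∀ i j, i ≠ j → ¬ (p i = p j ∧ q i = q j)) :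
    Simple (2 * m + 3) (ea m p) (eb m q) := by
  refine ⟨fun i => ?_, fun i j => ?_⟩
  · have hi := i.isLt
    unfold ea eb
    by_cases h : (i : ℕ) < N
    · have h3 := hp ⟨i, h⟩
      have h4 := hq ⟨i, h⟩
      simp only [h, dif_pos]
      omega
    · by_cases h' : (i : ℕ) < 2 * N
      · simp only [h, dif_neg, not_false_iff, h', if_true]
        omega
      · simp only [h, dif_neg, not_false_iff, h', if_false]
        omega
  · have hi := i.isLt
    have hj := j.isLt
    unfold ea eb
    by_cases h : (i : ℕ) < N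
    · have h3 := hp ⟨i, h⟩
      have h4 := hq ⟨i, h⟩
      by_cases g : (j : ℕ) < N
      · simp only [h, g, dif_pos]
        intro e1 e2
        by_contra hne
        refine hd ⟨i, h⟩ ⟨j, g⟩ ?_ ⟨e1, by omega⟩
        intro e
        apply hne
        rw [Fin.mk.injEq] at e
        exact Fin.ext e
      · by_cases g' : (j : ℕ) < 2 * N
        · simp only [h, g, dif_pos, dif_neg, not_false_iff, g', if_true]
          omega
        · simp only [h, g, dif_pos, dif_neg, not_false_iff, g', if_false]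
          omega
    · by_cases h' : (i : ℕ) < 2 * N
      · by_cases g : (j : ℕ) < N
        · have g3 := hp ⟨j, g⟩
          simp only [h, g, dif_pos, dif_neg, not_false_iff, h', if_true]
          omega
        · by_cases g' : (j : ℕ) < 2 * N
          · simp only [h, g, dif_neg, not_false_iff, h', g', if_true]
            intro e1 e2
            apply Fin.ext
            omega
          · simp only [h, g, dif_neg, not_false_iff, h', g', if_true, if_false]
            omega
      · by_cases g : (j : ℕ) < N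
        · have g3 := hp ⟨j, g⟩
          simp only [h, g, dif_pos, dif_neg, not_false_iff, h', if_false]
          omega
        · by_cases g' : (j : ℕ) < 2 * N
          · simp only [h, g, dif_neg, not_false_iff, h', g', if_true, if_false]
            omega
          · simp only [h, g, dif_neg, not_false_iff, h', g', if_false]
            intro e1 e2
            apply Fin.ext
            omega

theorem triangle_inst (h1 : 2 * N ≤ m) (p q : Fin N → ℕ) {s l : Fin N} {k : ℕ} (hk : k < N)
    (hs : p s = 2 * k) (hl : p l = 2 * k + 1) (hq : q s = q l) :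
    HasTriangle (ea m p) (eb m q) := by
  have e1 := s.isLt
  have e2 := l.isLt
  refine ⟨⟨N + k, by omega⟩, ⟨s, by omega⟩, ⟨l, by omega⟩, ?_, ?_, ?_⟩
  · simp only [ea, e1, dif_pos, Fin.eta, hs]
    rw [dif_neg (by omega), if_pos (by omega)]
    omega
  · simp only [ea, eb, e2, dif_pos, Fin.eta, hl]
    rw [dif_neg (by omega), if_pos (by omega)]
    omega
  · simp only [eb, e1, e2, dif_pos, Fin.eta, hq]

theorem of_triangle_inst (p q : Fin N → ℕ) (hp : ∀ i, p i < 2 * N) (hq : ∀ i, q i ≤ 2 * N)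
    (h : HasTriangle (ea m p) (eb m q)) :
    ∃ s l, s ≠ l ∧ p s / 2 = p l / 2 ∧ q s = q l := by
  obtain ⟨i, j, l, e1, e2, e3⟩ := h
  unfold ea at e1 e2
  unfold eb at e2 e3
  by_cases hi : (i : ℕ) < N
  · exfalso
    rw [dif_pos hi] at e2
    have := hq ⟨i, hi⟩
    by_cases hl : (l : ℕ) < N
    · rw [dif_pos hl] at e2
      have := hp ⟨l, hl⟩
      omega
    · rw [dif_neg hl] at e2
      split_ifs at e2 <;> omega
  · rw [dif_neg hi] at e1 e2
    by_cases hi' : (i : ℕ) < 2 * N
    · rw [if_pos hi'] at e1 e2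
      by_cases hl : (l : ℕ) < N
      · rw [dif_pos hl] at e2 e3
        by_cases hj : (j : ℕ) < N
        · rw [dif_pos hj] at e1 e3
          refine ⟨⟨j, hj⟩, ⟨l, hl⟩, ?_, by omega, by omega⟩
          intro e
          rw [e] at e1
          omega
        · rw [dif_neg hj] at e1 e3
          exfalso
          split_ifs at e1 e3 <;> omega
      · rw [dif_neg hl] at e2
        exfalso
        split_ifs at e2 <;> omega
    · rw [if_neg hi'] at e1 e2
      exfalso
      by_cases hl : (l : ℕ) < N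
      · rw [dif_pos hl] at e2
        have := hp ⟨l, hl⟩
        omega
      · rw [dif_neg hl] at e2
        split_ifs at e2 <;> omega

/-! ### Linear forms -/

theorem form_inst (h1 : N ≤ m) (c : ℝ) (α β : Fin m → ℝ) :
    ∃ C : ℝ, ∀ p q : Fin N → ℕ, c + ∑ i, (α i * (ea m p i : ℝ) + β i * (eb m q i : ℝ)) =
      F C (fun i => α (Fin.castLE h1 i)) (fun i => β (Fin.castLE h1 i)) p q := by
  obtain ⟨M, rfl⟩ : ∃ M, m = N + M := ⟨m - N, by omega⟩
  refine ⟨c + ∑ i : Fin N, β (Fin.castAdd M i) * (2 * N) + ∑ j : Fin M,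
    (α (Fin.natAdd N j) * (ea (N + M) (fun _ : Fin N => 0) (Fin.natAdd N j) : ℝ) +
    β (Fin.natAdd N j) * (eb (N + M) (fun _ : Fin N => 0) (Fin.natAdd N j) : ℝ)), fun p q => ?_⟩
  rw [Fin.sum_univ_add]
  have e1 : ∀ i : Fin N, α (Fin.castAdd M i) * (ea (N + M) p (Fin.castAdd M i) : ℝ) +
      β (Fin.castAdd M i) * (eb (N + M) q (Fin.castAdd M i) : ℝ) =
      β (Fin.castAdd M i) * (2 * N) + (α (Fin.castLE h1 i) * p i + β (Fin.castLE h1 i) * q i) := by
    intro i
    have hi : ((Fin.castAdd M i : Fin (N + M)) : ℕ) < N := by simp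
    have hc : Fin.castLE h1 i = Fin.castAdd M i := rfl
    have hp : ea (N + M) p (Fin.castAdd M i) = p i := by
      unfold ea
      rw [dif_pos hi]
      congr 1
    have hq : eb (N + M) q (Fin.castAdd M i) = 2 * N + q i := by
      unfold eb
      rw [dif_pos hi]
      congr 1
    rw [hp, hq, hc]
    push_cast
    ring
  have e2 : ∀ j : Fin M, α (Fin.natAdd N j) * (ea (N + M) p (Fin.natAdd N j) : ℝ) +
      β (Fin.natAdd N j) * (eb (N + M) q (Fin.natAdd N j) : ℝ) =
      α (Fin.natAdd N j) * (ea (N + M) (fun _ : Fin N => 0) (Fin.natAdd N j) : ℝ) +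
      β (Fin.natAdd N j) * (eb (N + M) (fun _ : Fin N => 0) (Fin.natAdd N j) : ℝ) := by
    intro j
    have hj : ¬ ((Fin.natAdd N j : Fin (N + M)) : ℕ) < N := by simp
    have hp : ea (N + M) p (Fin.natAdd N j) =
        ea (N + M) (fun _ : Fin N => 0) (Fin.natAdd N j) := by
      unfold ea
      rw [dif_neg hj, dif_neg hj]
    have hq : eb (N + M) q (Fin.natAdd N j) =
        eb (N + M) (fun _ : Fin N => 0) (Fin.natAdd N j) := by
      unfold eb
      rw [dif_neg hj, dif_neg hj]
    rw [hp, hq]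
  rw [Finset.sum_congr rfl fun i _ => e1 i, Finset.sum_congr rfl fun j _ => e2 j,
    Finset.sum_add_distrib]
  unfold F
  ring

/-! ### Good samples -/

/-- The bad event. -/
def E (g : Fin N × Bool → ℕ) (i j : Fin N) (z : Sp N) : Prop :=
  (z i).1.1 = (z j).1.1 ∧ qv (z i).2 = g (z j).2

/-- The sample gives two legal lists. -/
def Good (t t' : Fin N) (z : Sp N) : Prop :=
  (∀ i j, i ≠ j → i ≠ t → j ≠ t → ¬ E qv i j z) ∧
    ∀ i, i ≠ t → i ≠ t' → ¬ E (fun x => qv x + 1) i t' z

theorem card_E (g : Fin N × Bool → ℕ) {i j : Fin N} (hij : i ≠ j) (B : Finset (Sp N))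
    (hB : ∀ z ∈ B, E g i j z) :
    B.card * (2 * N ^ 2) ≤ Fintype.card (Sp N) := by
  classical
  have hX : Fintype.card (Fin N × (Fin N × Bool)) = 2 * N ^ 2 := by
    rw [Fintype.card_prod, Fintype.card_prod, Fintype.card_fin, Fintype.card_bool]
    ring
  rw [← hX, ← one_mul (Fintype.card (Sp N))]
  refine resample (W := Sp N) (X := Fin N × (Fin N × Bool))
    (fun z y => Function.update z i ((y.1, (z i).1.2), y.2)) (fun z => ((z i).1.1, (z i).2))
    ?_ ?_ ?_ _ _ ?_
  · intro w x
    simp
  · intro w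
    simp
  · intro w x y
    simp
  · intro z
    rw [Finset.card_le_one]
    intro x hx y hy
    rw [Finset.mem_filter] at hx hy
    have h1 := hB _ hx.2
    have h2 := hB _ hy.2
    simp only [E, Function.update_self, Function.update_of_ne hij.symm] at h1 h2
    refine Prod.ext ?_ ?_
    · rw [h1.1, h2.1]
    · exact qv_injective (h1.2.trans h2.2.symm)

theorem card_good (hN : 2 ≤ N) (t t' : Fin N) (B : Finset (Sp N)) (hB : ∀ z ∈ B, ¬ Good t t' z) :
    2 * B.card ≤ Fintype.card (Sp N) := by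
  classical
  obtain ⟨X, hX⟩ : ∃ X : Finset (Fin N × Fin N), X = univ.filter fun x => x.1 ≠ x.2 := ⟨_, rfl⟩
  obtain ⟨Y, hY⟩ : ∃ Y : Finset (Fin N), Y = univ.filter fun x => x ≠ t' := ⟨_, rfl⟩
  have hXc : X.card + N ≤ N ^ 2 := by
    have h1 : X = univ.offDiag := by
      ext x
      rw [hX]
      simp
    rw [h1, Finset.offDiag_card, Finset.card_univ, Fintype.card_fin]
    have : N ≤ N * N := Nat.le_mul_self N
    rw [sq]
    omega
  have hYc : Y.card ≤ N := by
    refine (Finset.card_le_univ _).trans ?_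
    rw [Fintype.card_fin]
  have hsub : B ⊆ (X.biUnion fun x => univ.filter fun z => E qv x.1 x.2 z) ∪
      (Y.biUnion fun i => univ.filter fun z => E (fun x => qv x + 1) i t' z) := by
    intro z hz
    have h := hB z hz
    rw [Finset.mem_union, Finset.mem_biUnion, Finset.mem_biUnion]
    by_contra hcon
    push Not at hcon
    refine h ⟨fun i j hij _ _ hE => hcon.1 (i, j) ?_ ?_, fun i _ hi hE => hcon.2 i ?_ ?_⟩
    · rw [hX]; simp [hij]
    · simp [hE]
    · rw [hY]; simp [hi]
    · simp [hE]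
  have h1 : B.card ≤ ∑ x ∈ X, (univ.filter fun z => E qv x.1 x.2 z).card +
      ∑ i ∈ Y, (univ.filter fun z => E (fun x => qv x + 1) i t' z).card :=
    (Finset.card_le_card hsub).trans ((Finset.card_union_le _ _).trans
      (add_le_add Finset.card_biUnion_le Finset.card_biUnion_le))
  have h2 : (∑ x ∈ X, (univ.filter fun z => E qv x.1 x.2 z).card) * (2 * N ^ 2) ≤
      X.card * Fintype.card (Sp N) := by
    rw [Finset.sum_mul]
    calc _ ≤ ∑ _x ∈ X, Fintype.card (Sp N) := by
            refine Finset.sum_le_sum fun x hx => ?_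
            rw [hX, Finset.mem_filter] at hx
            exact card_E qv hx.2 _ fun z hz => (Finset.mem_filter.mp hz).2
      _ = _ := by rw [Finset.sum_const, smul_eq_mul]
  have h3 : (∑ i ∈ Y, (univ.filter fun z => E (fun x => qv x + 1) i t' z).card) * (2 * N ^ 2) ≤
      Y.card * Fintype.card (Sp N) := by
    rw [Finset.sum_mul]
    calc _ ≤ ∑ _x ∈ Y, Fintype.card (Sp N) := by
            refine Finset.sum_le_sum fun x hx => ?_
            rw [hY, Finset.mem_filter] at hx
            exact card_E _ hx.2 _ fun z hz => (Finset.mem_filter.mp hz).2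
      _ = _ := by rw [Finset.sum_const, smul_eq_mul]
  have h4 : (2 * B.card) * N ^ 2 ≤ Fintype.card (Sp N) * N ^ 2 := by
    calc (2 * B.card) * N ^ 2 = B.card * (2 * N ^ 2) := by ring
      _ ≤ _ := Nat.mul_le_mul_right _ h1
      _ ≤ X.card * Fintype.card (Sp N) + Y.card * Fintype.card (Sp N) := by
          rw [add_mul]
          exact add_le_add h2 h3
      _ = (X.card + Y.card) * Fintype.card (Sp N) := by ring
      _ ≤ N ^ 2 * Fintype.card (Sp N) := Nat.mul_le_mul_right _ (by omega)
      _ = _ := by ring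
  exact Nat.le_of_mul_le_mul_right h4 (by positivity)

theorem pv_lt (x : Fin N × Bool) : pv x < 2 * N := by
  obtain ⟨x, b⟩ := x
  have := x.isLt
  cases b <;> simp [pv] <;> omega

theorem pv_half (x : Fin N × Bool) : pv x / 2 = x.1 := by
  obtain ⟨x, b⟩ := x
  cases b <;> simp [pv] <;> omega

theorem pv_injective : Function.Injective (pv (N := N)) := by
  rintro ⟨x, b⟩ ⟨y, c⟩ h
  have h1 : x = y := by
    have := congrArg (· / 2) h
    simp only [pv_half] at this
    exact Fin.ext this
  subst h1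
  cases b <;> cases c <;> simp [pv] at h <;> rfl

theorem fl_ne (x : Fin N × Bool) : fl x ≠ x := by
  obtain ⟨x, b⟩ := x
  cases b <;> simp [fl]

theorem P_lt (t t' : Fin N) (z : Sp N) (i : Fin N) : P t t' z i < 2 * N := by
  unfold P
  split_ifs <;> exact pv_lt _

theorem QY_le (t t' : Fin N) (z : Sp N) (i : Fin N) : QY t t' z i ≤ 2 * N := by
  unfold QY
  split_ifs <;> exact (qv_lt _).le

theorem QN_le (t t' : Fin N) (z : Sp N) (i : Fin N) : QN t t' z i ≤ 2 * N := by
  unfold QN
  split_ifs
  · exact qv_lt _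
  · exact (qv_lt _).le

theorem good_yes {t t' : Fin N} (ht : t' ≠ t) {z : Sp N} (hz : Good t t' z) (i j : Fin N)
    (hij : i ≠ j) : ¬ (P t t' z i = P t t' z j ∧ QY t t' z i = QY t t' z j) := by
  rintro ⟨h1, h2⟩
  unfold P at h1
  unfold QY at h2
  by_cases hi : i = t
  · have hj : j ≠ t := fun h => hij (hi.trans h.symm)
    rw [if_pos hi, if_neg hj] at h1 h2
    have h3 := pv_injective h1
    have hjt : j ≠ t' := by
      rintro rfl
      exact fl_ne _ h3
    refine hz.1 j t' hjt hj ht ⟨?_, h2.symm⟩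
    rw [← h3]
    rfl
  · by_cases hj : j = t
    · rw [if_neg hi, if_pos hj] at h1 h2
      have h3 := pv_injective h1
      have hit : i ≠ t' := by
        rintro rfl
        exact fl_ne _ h3.symm
      refine hz.1 i t' hit hi ht ⟨?_, h2⟩
      rw [h3]
      rfl
    · rw [if_neg hi, if_neg hj] at h1 h2
      exact hz.1 i j hij hi hj ⟨by rw [pv_injective h1], h2⟩

theorem good_no {t t' : Fin N} (ht : t' ≠ t) {z : Sp N} (hz : Good t t' z) (i j : Fin N)
    (hij : i ≠ j) : ¬ (P t t' z i / 2 = P t t' z j / 2 ∧ QN t t' z i = QN t t' z j) := by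
  rintro ⟨h1, h2⟩
  unfold P at h1
  unfold QN at h2
  by_cases hi : i = t
  · have hj : j ≠ t := fun h => hij (hi.trans h.symm)
    rw [if_pos hi, if_neg hj] at h1 h2
    rw [pv_half, pv_half] at h1
    by_cases hjt : j = t'
    · subst hjt
      omega
    · exact hz.2 j hj hjt ⟨Fin.ext h1.symm, h2.symm⟩
  · by_cases hj : j = t
    · rw [if_neg hi, if_pos hj] at h1 h2
      rw [pv_half, pv_half] at h1
      by_cases hit : i = t'
      · subst hit
        omega
      · exact hz.2 i hi hit ⟨Fin.ext h1, h2⟩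
    · rw [if_neg hi, if_neg hj] at h1 h2
      rw [pv_half, pv_half] at h1
      exact hz.1 i j hij hi hj ⟨Fin.ext h1, h2⟩

theorem yes_triangle (h1 : 2 * N ≤ m) {t t' : Fin N} (ht : t' ≠ t) (z : Sp N) :
    HasTriangle (ea m (P t t' z)) (eb m (QY t t' z)) := by
  have hq : QY t t' z t = QY t t' z t' := by
    unfold QY
    rw [if_pos rfl, if_neg ht]
  have hPt : P t t' z t = pv (fl (z t').1) := by
    unfold P
    rw [if_pos rfl]
  have hPt' : P t t' z t' = pv (z t').1 := by
    unfold P
    rw [if_neg ht]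
  have hlt := (z t').1.1.isLt
  cases hb : (z t').1.2
  · refine triangle_inst h1 _ _ (s := t') (l := t) (k := (z t').1.1) hlt ?_ ?_ hq.symm
    · rw [hPt', pv, hb]
      simp
    · rw [hPt, pv, fl, hb]
      simp
  · refine triangle_inst h1 _ _ (s := t) (l := t') (k := (z t').1.1) hlt ?_ ?_ hq
    · rw [hPt, pv, fl, hb]
      simp
    · rw [hPt', pv, hb]
      simp

theorem no_triangle {t t' : Fin N} (ht : t' ≠ t) {z : Sp N} (hz : Good t t' z) :
    ¬ HasTriangle (ea m (P t t' z)) (eb m (QN t t' z)) := by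
  intro h
  obtain ⟨s, l, h1, h2⟩ := of_triangle_inst _ _ (P_lt t t' z) (QN_le t t' z) h
  exact good_no ht hz s l h1 h2

end Pool.Agent.H1.LT
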