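import Mathlib

/-!
# The Littlewood-Offord inequality of Erdos
-/

set_option autoImplicit false

namespace Pool.Agent.H1.LT

open Finset

theorem centralBinom_sq (k : ℕ) : k.centralBinom ^ 2 * (2 * k + 1) ≤ 16 ^ k := by
  induction k with
  | zero => simp
  | succ k ih =>
    have h := Nat.succ_mul_centralBinom_succ k
    have h1 : (k + 1) ^ 2 * ((k + 1).centralBinom ^ 2 * (2 * (k + 1) + 1)) ≤
        (k + 1) ^ 2 * 16 ^ (k + 1) := by
      calc (k + 1) ^ 2 * ((k + 1).centralBinom ^ 2 * (2 * (k + 1) + 1))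
          = ((k + 1) * (k + 1).centralBinom) ^ 2 * (2 * k + 3) := by ring
        _ = (2 * (2 * k + 1) * k.centralBinom) ^ 2 * (2 * k + 3) := by rw [h]
        _ = k.centralBinom ^ 2 * (2 * k + 1) * (4 * ((2 * k + 1) * (2 * k + 3))) := by ring
        _ ≤ 16 ^ k * (4 * (4 * (k + 1) ^ 2)) := by
            refine Nat.mul_le_mul ih (Nat.mul_le_mul_left _ ?_)
            nlinarith
        _ = (k + 1) ^ 2 * 16 ^ (k + 1) := by ring
    exact Nat.le_of_mul_le_mul_left h1 (by positivity)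

theorem choose_half_sq (n : ℕ) : (n.choose (n / 2)) ^ 2 * (n + 1) ≤ 4 ^ n := by
  rcases Nat.even_or_odd n with ⟨k, hk⟩ | ⟨k, hk⟩
  · have h1 : n / 2 = k := by omega
    have h2 : n = 2 * k := by omega
    rw [h1, h2]
    have h := centralBinom_sq k
    rw [Nat.centralBinom_eq_two_mul_choose] at h
    calc (2 * k).choose k ^ 2 * (2 * k + 1) ≤ 16 ^ k := h
      _ = 4 ^ (2 * k) := by rw [pow_mul]; norm_num
  · have h1 : n / 2 = k := by omega
    rw [h1, hk]
    have h := centralBinom_sq k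
    rw [Nat.centralBinom_eq_two_mul_choose] at h
    have h2 : (2 * k + 1) * (2 * k).choose k = (2 * k + 1).choose (k + 1) * (k + 1) :=
      Nat.add_one_mul_choose_eq (2 * k) k
    have h3 : (2 * k + 1).choose (k + 1) = (2 * k + 1).choose k := Nat.choose_symm_half k
    rw [h3] at h2
    have h4 : (k + 1) ^ 2 * ((2 * k + 1).choose k ^ 2 * (2 * k + 1 + 1)) ≤
        (k + 1) ^ 2 * 4 ^ (2 * k + 1) := by
      calc (k + 1) ^ 2 * ((2 * k + 1).choose k ^ 2 * (2 * k + 1 + 1))
          = ((2 * k + 1).choose k * (k + 1)) ^ 2 * (2 * k + 2) := by ring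
        _ = ((2 * k + 1) * (2 * k).choose k) ^ 2 * (2 * k + 2) := by rw [h2]
        _ = (2 * k).choose k ^ 2 * (2 * k + 1) * ((2 * k + 1) * (2 * k + 2)) := by ring
        _ ≤ 16 ^ k * (4 * (k + 1) ^ 2) := Nat.mul_le_mul h (by nlinarith)
        _ = (k + 1) ^ 2 * 4 ^ (2 * k + 1) := by
            have e : (4 : ℕ) ^ (2 * k + 1) = 16 ^ k * 4 := by
              rw [pow_succ, pow_mul]
              norm_num
            rw [e]
            ring
    exact Nat.le_of_mul_le_mul_left h4 (by positivity)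

theorem choose_half_le (n : ℕ) : ((n.choose (n / 2) : ℕ) : ℝ) ≤ 2 ^ n / √(n + 1) := by
  have h := choose_half_sq n
  have h1 : ((n.choose (n / 2) : ℕ) : ℝ) ^ 2 * (n + 1) ≤ 4 ^ n := by exact_mod_cast h
  have hp : (0 : ℝ) < √(n + 1) := Real.sqrt_pos.mpr (by positivity)
  rw [le_div_iff₀ hp]
  refine abs_le_of_sq_le_sq' ?_ (by positivity) |>.2
  rw [mul_pow, Real.sq_sqrt (by positivity)]
  calc _ ≤ (4 : ℝ) ^ n := h1
    _ = (2 ^ n) ^ 2 := by rw [← pow_mul, mul_comm, pow_mul]; norm_num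

section lo
variable {ι : Type*} [DecidableEq ι]

/-- flipped sets -/
noncomputable def flip (K : Finset ι) (a : ι → ℝ) (A : Finset ι) : Finset K := by
  classical
  exact univ.filter fun i : K => if a i < 0 then (i : ι) ∉ A else (i : ι) ∈ A

theorem mem_flip {K : Finset ι} {a : ι → ℝ} {A : Finset ι} {i : K} :
    i ∈ flip K a A ↔ (if a i < 0 then (i : ι) ∉ A else (i : ι) ∈ A) := by
  classical
  unfold flip
  rw [Finset.mem_filter]
  simp

theorem sum_flip (K : Finset ι) (a : ι → ℝ) (A : Finset ι) (hA : A ⊆ K) :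
    ∑ i ∈ A, a i = ∑ i ∈ flip K a A, |a i| + ∑ i : K, min (a i) 0 := by
  classical
  have h1 : ∑ i ∈ A, a i = ∑ i : K, if (i : ι) ∈ A then a i else 0 := by
    rw [Finset.sum_coe_sort K (fun i => if i ∈ A then a i else 0), Finset.sum_ite_mem,
      Finset.inter_eq_right.mpr hA]
  have h2 : ∑ i ∈ flip K a A, |a i| = ∑ i : K, if i ∈ flip K a A then |a i| else 0 := by
    rw [Finset.sum_ite_mem, Finset.univ_inter]
  rw [h1, h2, ← Finset.sum_add_distrib]
  refine Finset.sum_congr rfl fun i _ => ?_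
  simp only [mem_flip]
  by_cases ha : a i < 0
  · simp only [ha, if_true]
    by_cases hi : (i : ι) ∈ A
    · simp [hi, min_eq_left ha.le]
    · simp [hi, min_eq_left ha.le, abs_of_neg ha]
  · simp only [ha, if_false]
    rw [not_lt] at ha
    by_cases hi : (i : ι) ∈ A
    · simp [hi, min_eq_right ha, abs_of_nonneg ha]
    · simp [hi, min_eq_right ha]

theorem flip_injOn (K : Finset ι) (a : ι → ℝ) {A B : Finset ι} (hA : A ⊆ K) (hB : B ⊆ K)
    (h : flip K a A = flip K a B) : A = B := by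
  ext i
  by_cases hi : i ∈ K
  · have h1 := Finset.ext_iff.mp h ⟨i, hi⟩
    rw [mem_flip, mem_flip] at h1
    by_cases ha : a i < 0
    · simp only [ha, if_true] at h1
      tauto
    · simpa only [ha, if_false] using h1
  · exact ⟨fun h' => absurd (hA h') hi, fun h' => absurd (hB h') hi⟩

/-- **Littlewood-Offord.** -/
theorem lo_card (K : Finset ι) (a : ι → ℝ) {δ : ℝ} (hδ : 0 < δ) (ha : ∀ i ∈ K, δ ≤ |a i|)
    (L : ℝ) : (K.powerset.filter fun A => L ≤ ∑ i ∈ A, a i ∧ ∑ i ∈ A, a i < L + δ).card ≤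
      K.card.choose (K.card / 2) := by
  classical
  set S := K.powerset.filter fun A => L ≤ ∑ i ∈ A, a i ∧ ∑ i ∈ A, a i < L + δ with hS
  have h1 : S.card = (S.image (flip K a)).card := by
    rw [Finset.card_image_of_injOn]
    intro A hA B hB h
    rw [Finset.mem_coe, hS, Finset.mem_filter, Finset.mem_powerset] at hA hB
    exact flip_injOn K a hA.1 hB.1 h
  rw [h1]
  have h2 : IsAntichain (· ⊆ ·) (SetLike.coe (S.image (flip K a))) := by
    intro X hX Y hY hne hsub
    rw [Finset.mem_coe, Finset.mem_image] at hX hY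
    obtain ⟨A, hA, rfl⟩ := hX
    obtain ⟨B, hB, rfl⟩ := hY
    rw [hS, Finset.mem_filter, Finset.mem_powerset] at hA hB
    have e1 := sum_flip K a A hA.1
    have e2 := sum_flip K a B hB.1
    obtain ⟨i, hi, hi'⟩ := Finset.exists_of_ssubset (Finset.ssubset_iff_subset_ne.mpr ⟨hsub, hne⟩)
    have h3 : |a i| + ∑ j ∈ flip K a A, |a j| ≤ ∑ j ∈ flip K a B, |a j| := by
      rw [← Finset.sum_insert (f := fun j : K => |a j|) hi']
      exact Finset.sum_le_sum_of_subset_of_nonneg (Finset.insert_subset hi hsub)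
        fun _ _ _ => abs_nonneg _
    have h4 := ha i i.2
    linarith [hA.2.1, hB.2.2]
  have h3 := h2.sperner
  rwa [Fintype.card_coe] at h3

end lo

end Pool.Agent.H1.LT
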