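import Pool.Agent.H1.LT.LO

/-!
# Small ball inequalities at two scales
-/

set_option autoImplicit false

namespace Pool.Agent.H1.LT

open Finset

/-- The sum of a decreasing function of the ranks. -/
theorem rank_sum {N : ℕ} (A : Fin N → ℝ) (φ : ℕ → ℝ) (hφ : Antitone φ) :
    ∑ t, φ ((univ.filter fun i => A t ≤ A i).card) ≤ ∑ r ∈ range N, φ (r + 1) := by
  classical
  set σ := Tuple.sort fun i => -A i with hσ
  have hmono : Monotone ((fun i => -A i) ∘ σ) := Tuple.monotone_sort _
  rw [← Equiv.sum_comp σ, Finset.sum_range]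
  refine Finset.sum_le_sum fun r _ => hφ ?_
  have h1 : (univ.filter fun s : Fin N => s ≤ r).card = (r : ℕ) + 1 := by
    have : (univ.filter fun s : Fin N => s ≤ r) = Finset.Iic r := by ext s; simp
    rw [this, Fin.card_Iic]
  rw [← h1, ← Finset.card_image_of_injective _ σ.injective]
  refine Finset.card_le_card fun i hi => ?_
  rw [Finset.mem_image] at hi
  obtain ⟨s, hs, rfl⟩ := hi
  rw [Finset.mem_filter] at hs ⊢
  refine ⟨Finset.mem_univ _, ?_⟩
  have := hmono hs.2
  simp only [Function.comp_apply] at this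
  linarith

/-- Resampling. -/
theorem resample {W X : Type*} [Fintype W] [Fintype X] [DecidableEq W] (op : W → X → W)
    (pr : W → X) (h1 : ∀ w x, pr (op w x) = x) (h2 : ∀ w, op w (pr w) = w)
    (h3 : ∀ w x y, op (op w x) y = op w y) (S : Finset W) (n : ℕ)
    (hn : ∀ w, (univ.filter fun x => op w x ∈ S).card ≤ n) :
    S.card * Fintype.card X ≤ n * Fintype.card W := by
  classical
  have e1 : (univ.filter fun y : W × X => op y.1 y.2 ∈ S).card = S.card * Fintype.card X := by
    rw [← Finset.card_univ (α := X), ← Finset.card_product]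
    refine Finset.card_nbij' (fun y => (op y.1 y.2, pr y.1)) (fun y => (op y.1 y.2, pr y.1))
      ?_ ?_ ?_ ?_
    · intro y hy
      rw [Finset.mem_coe, Finset.mem_filter] at hy
      rw [Finset.mem_coe, Finset.mem_product]
      exact ⟨hy.2, Finset.mem_univ _⟩
    · intro y hy
      rw [Finset.mem_coe, Finset.mem_product] at hy
      rw [Finset.mem_coe, Finset.mem_filter]
      refine ⟨Finset.mem_univ _, ?_⟩
      simp only
      rw [h3, h2]
      exact hy.1
    · intro y _
      refine Prod.ext ?_ ?_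
      · simp only
        rw [h3, h2]
      · simp only
        rw [h1]
    · intro y _
      refine Prod.ext ?_ ?_
      · simp only
        rw [h3, h2]
      · simp only
        rw [h1]
  have e2 : (univ.filter fun y : W × X => op y.1 y.2 ∈ S).card =
      ∑ w, (univ.filter fun x => op w x ∈ S).card := by
    rw [Finset.card_filter, Fintype.sum_prod_type]
    refine Finset.sum_congr rfl fun w _ => ?_
    rw [Finset.card_filter]
  rw [← e1, e2]
  calc ∑ w, (univ.filter fun x => op w x ∈ S).card ≤ ∑ _w : W, n :=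
        Finset.sum_le_sum fun w _ => hn w
    _ = n * Fintype.card W := by rw [Finset.sum_const, Finset.card_univ, smul_eq_mul, mul_comm]

/-- Few points of a progression are in a short interval. -/
theorem card_short (S : Finset ℕ) (k : ℕ) (e lo hi : ℝ) (he : e ≠ 0) (hl : hi - lo < (k + 1) * |e|)
    (hS : ∀ x ∈ S, lo ≤ e * x ∧ e * x ≤ hi) : S.card ≤ k + 1 := by
  rcases S.eq_empty_or_nonempty with h | h
  · rw [h]; simp
  · have hsub : S ⊆ Icc (S.min' h) (S.min' h + k) := by
      intro x hx
      have h1 := S.min'_le x hx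
      rw [Finset.mem_Icc]
      refine ⟨h1, ?_⟩
      by_contra hcon
      push Not at hcon
      have h2 := hS x hx
      have h3 := hS _ (S.min'_mem h)
      have h4 : |e| * ((x : ℝ) - S.min' h) ≤ hi - lo := by
        have h5 : |e| * ((x : ℝ) - S.min' h) = |e * x - e * (S.min' h : ℕ)| := by
          rw [← mul_sub, abs_mul, abs_of_nonneg (a := (x : ℝ) - (S.min' h : ℕ))]
          have : ((S.min' h : ℕ) : ℝ) ≤ x := by exact_mod_cast h1
          linarith
        rw [h5, abs_le]
        constructor <;> linarith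
      have h6 : (k : ℝ) + 1 ≤ (x : ℝ) - S.min' h := by
        have : S.min' h + k + 1 ≤ x := hcon
        have h7 : ((S.min' h + k + 1 : ℕ) : ℝ) ≤ x := by exact_mod_cast this
        push_cast at h7
        linarith
      have h8 : 0 < |e| := abs_pos.mpr he
      nlinarith
    calc S.card ≤ _ := Finset.card_le_card hsub
      _ = k + 1 := by rw [Nat.card_Icc]; omega

/-- The number given by a small number and a bit. -/
def qv {r : ℕ} (x : Fin r × Bool) : ℕ := (x.1 : ℕ) + r * x.2.toNat

theorem qv_lt {r : ℕ} (x : Fin r × Bool) : qv x < 2 * r := by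
  obtain ⟨x, b⟩ := x
  have := x.isLt
  cases b <;> simp [qv] <;> omega

theorem qv_injective {r : ℕ} : Function.Injective (qv (r := r)) := by
  rintro ⟨x, b⟩ ⟨y, c⟩ h
  have h1 := x.isLt
  have h2 := y.isLt
  cases b <;> cases c <;> simp [qv] at h <;> first
    | (have : x = y := Fin.ext h; rw [this])
    | (exfalso; omega)

theorem card_qv {r : ℕ} (k : ℕ) (e lo hi : ℝ) (he : e ≠ 0) (hl : hi - lo < (k + 1) * |e|) :
    (univ.filter fun x : Fin r × Bool => lo ≤ e * qv x ∧ e * qv x ≤ hi).card ≤ k + 1 := by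
  classical
  rw [← Finset.card_image_of_injective _ qv_injective]
  refine card_short _ k e lo hi he hl ?_
  intro n hn
  rw [Finset.mem_image] at hn
  obtain ⟨x, hx, rfl⟩ := hn
  exact (Finset.mem_filter.mp hx).2

/-- Littlewood-Offord for functions. -/
theorem lo_fun {κ : Type*} [Fintype κ] [DecidableEq κ] (a : κ → ℝ) {δ : ℝ} (hδ : 0 < δ)
    (ha : ∀ i, δ ≤ |a i|) (L : ℝ) :
    (univ.filter fun e : κ → Bool => L ≤ ∑ i, (if e i then a i else 0) ∧
      ∑ i, (if e i then a i else 0) < L + δ).card ≤
      (Fintype.card κ).choose (Fintype.card κ / 2) := by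
  classical
  have h := lo_card (univ : Finset κ) a hδ (fun i _ => ha i) L
  rw [Finset.card_univ] at h
  refine le_trans ?_ h
  refine Finset.card_le_card_of_injOn (fun e => univ.filter fun i => e i = true) ?_ ?_
  · intro e he
    rw [Finset.mem_coe, Finset.mem_filter] at he
    rw [Finset.mem_coe, Finset.mem_filter, Finset.mem_powerset]
    refine ⟨Finset.subset_univ _, ?_⟩
    rw [Finset.sum_filter]
    exact he.2
  · intro e _ e' _ h
    funext i
    have := Finset.ext_iff.mp h i
    simp only [Finset.mem_filter, Finset.mem_univ, true_and] at this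
    cases h1 : e i <;> cases h2 : e' i <;> simp_all

/-- **Two scales.** -/
theorem two_scale {κ : Type*} [Fintype κ] [DecidableEq κ] {r : ℕ} (hr : 0 < r) (e₀ : ℝ)
    (he : e₀ ≠ 0) (a : κ → ℝ) (ha : ∀ i, r * |e₀| ≤ |a i|) (lo hi : ℝ) (hl : hi - lo ≤ |e₀|) :
    (univ.filter fun y : (Fin r × Bool) × (κ → Bool) =>
      lo ≤ e₀ * qv y.1 + ∑ i, (if y.2 i then a i else 0) ∧
        e₀ * qv y.1 + ∑ i, (if y.2 i then a i else 0) ≤ hi).card ≤
      6 * (Fintype.card κ).choose (Fintype.card κ / 2) := by
  classical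
  obtain ⟨δ, hδ⟩ : ∃ δ : ℝ, δ = r * |e₀| := ⟨_, rfl⟩
  have hr' : (0 : ℝ) < r := by exact_mod_cast hr
  have he' : 0 < |e₀| := abs_pos.mpr he
  have hδ0 : 0 < δ := by rw [hδ]; positivity
  obtain ⟨L, hL⟩ : ∃ L : ℝ, L = lo - max 0 (e₀ * (2 * r - 1)) := ⟨_, rfl⟩
  -- the values of the sum
  have key : ∀ e : κ → Bool, (univ.filter fun x : Fin r × Bool =>
      lo ≤ e₀ * qv x + ∑ i, (if e i then a i else 0) ∧
        e₀ * qv x + ∑ i, (if e i then a i else 0) ≤ hi).card ≤
      (if L ≤ ∑ i, (if e i then a i else 0) ∧ ∑ i, (if e i then a i else 0) < L + δ then 2 else 0)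
      + (if L + δ ≤ ∑ i, (if e i then a i else 0) ∧
          ∑ i, (if e i then a i else 0) < L + δ + δ then 2 else 0)
      + (if L + δ + δ ≤ ∑ i, (if e i then a i else 0) ∧
          ∑ i, (if e i then a i else 0) < L + δ + δ + δ then 2 else 0) := by
    intro e
    obtain ⟨s, hs⟩ : ∃ s : ℝ, s = ∑ i, (if e i then a i else 0) := ⟨_, rfl⟩
    rw [← hs]
    rcases (univ.filter fun x : Fin r × Bool => lo ≤ e₀ * qv x + s ∧
        e₀ * qv x + s ≤ hi).eq_empty_or_nonempty with h0 | ⟨x, hx⟩
    · rw [h0, Finset.card_empty]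
      exact Nat.zero_le _
    · have h2 : (univ.filter fun x : Fin r × Bool => lo ≤ e₀ * qv x + s ∧
        e₀ * qv x + s ≤ hi).card ≤ 2 := by
        have := card_qv (r := r) 1 e₀ (lo - s) (hi - s) he (by push_cast; linarith)
        refine le_trans (Finset.card_le_card ?_) this
        intro y hy
        rw [Finset.mem_filter] at hy ⊢
        exact ⟨hy.1, by linarith [hy.2.1], by linarith [hy.2.2]⟩
      rw [Finset.mem_filter] at hx
      have h3 : (qv x : ℝ) ≤ 2 * r - 1 := by
        have h4 := qv_lt x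
        have h5 : ((qv x + 1 : ℕ) : ℝ) ≤ ((2 * r : ℕ) : ℝ) := by exact_mod_cast h4
        push_cast at h5
        linarith
      have h4 : (0 : ℝ) ≤ qv x := Nat.cast_nonneg _
      have h5 : e₀ * qv x ≤ max 0 (e₀ * (2 * r - 1)) := by
        rcases le_total 0 e₀ with h | h
        · exact le_max_of_le_right (mul_le_mul_of_nonneg_left h3 h)
        · exact le_max_of_le_left (mul_nonpos_of_nonpos_of_nonneg h h4)
      have h6 : L ≤ s := by rw [hL]; linarith [hx.2.1]
      have h7 : s < L + δ + δ + δ := by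
        have h8 : max 0 (e₀ * (2 * r - 1)) - e₀ * qv x ≤ |e₀| * (2 * r - 1) := by
          rcases le_total 0 e₀ with h | h
          · rw [abs_of_nonneg h, max_eq_right (mul_nonneg h (by linarith))]
            have : 0 ≤ e₀ * qv x := mul_nonneg h h4
            linarith
          · rw [abs_of_nonpos h, max_eq_left (mul_nonpos_of_nonpos_of_nonneg h (by linarith))]
            nlinarith
        rw [hL]
        have h9 := hx.2.2
        rw [hδ] at hδ0 ⊢
        nlinarith
      by_cases c1 : s < L + δ
      · rw [if_pos ⟨h6, c1⟩]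
        omega
      · push Not at c1
        by_cases c2 : s < L + δ + δ
        · rw [if_pos (c := L + δ ≤ s ∧ s < L + δ + δ) ⟨c1, c2⟩]
          omega
        · push Not at c2
          rw [if_pos (c := L + δ + δ ≤ s ∧ s < L + δ + δ + δ) ⟨c2, h7⟩]
          omega
  have hsum : (univ.filter fun y : (Fin r × Bool) × (κ → Bool) =>
      lo ≤ e₀ * qv y.1 + ∑ i, (if y.2 i then a i else 0) ∧
        e₀ * qv y.1 + ∑ i, (if y.2 i then a i else 0) ≤ hi).card =
      ∑ e : κ → Bool, (univ.filter fun x : Fin r × Bool =>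
      lo ≤ e₀ * qv x + ∑ i, (if e i then a i else 0) ∧
        e₀ * qv x + ∑ i, (if e i then a i else 0) ≤ hi).card := by
    rw [Finset.card_filter, Fintype.sum_prod_type_right]
    refine Finset.sum_congr rfl fun e _ => ?_
    rw [Finset.card_filter]
  rw [hsum]
  refine (Finset.sum_le_sum fun e _ => key e).trans ?_
  rw [Finset.sum_add_distrib, Finset.sum_add_distrib]
  have hlo := fun L' => lo_fun a hδ0 (fun i => by rw [hδ]; exact ha i) L'
  have conv : ∀ L' : ℝ, ∑ e : κ → Bool, (if L' ≤ ∑ i, (if e i then a i else 0) ∧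
      ∑ i, (if e i then a i else 0) < L' + δ then 2 else 0) ≤
      2 * (Fintype.card κ).choose (Fintype.card κ / 2) := by
    intro L'
    rw [← Finset.sum_filter, Finset.sum_const, smul_eq_mul, mul_comm]
    exact Nat.mul_le_mul_left 2 (hlo L')
  have c1 := conv L
  have c2 := conv (L + δ)
  have c3 := conv (L + δ + δ)
  omega

end Pool.Agent.H1.LT
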